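import Pool.Agent.Run7.h371.BP.Main

/-!
# MP_6fd33d_al: minimal (m, n)-products of Boolean algebras are not always smallest elements

The family has two members, both equal to the algebra `R` of the regular open sets of the Cantor
space `X`. The minimal `(m, n)`-product is the algebra of the regular open sets of `X × X`. The
product `Q` is the algebra of the regular open sets of `C × X`, where `C` is the countable discrete
set of the finitely supported points of `X`, with the embeddings which are given by the maps
`(q, x) ↦ x` and `(q, x) ↦ x + q`, that is, `Q` is the power `R ^ C` and the second embedding is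
twisted by the translations.

The elements `e q` of `Q` (the copies of `X`) belong to the `σ`-subalgebra generated by the images of
the two embeddings, and their join is `1`. If `h` is a homomorphism to a minimal product which is
compatible with the embeddings then `h (e q) = 0`, because two nonzero elements of `R` can be shrunk
to elements whose images do not meet in the copy `q`. So `h` is not a `σ`-homomorphism.
-/

set_option autoImplicit false

namespace Pool.Agent.Results.MP_6fd33d_al.NotSmallest

open Run7.h371.BP

/-- There are a family of two nondegenerate Boolean algebras, a Boolean algebra `B` with embeddings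
`i` and a Boolean algebra `M` with embeddings `j`, such that for all infinite cardinals `n ≤ m` the
first is an `(m, n)`-product, the second is a minimal `(m, n)`-product, and the second is not below
the first; moreover no minimal `(m, n)`-product is below the first. -/
theorem result :
    ∃ (A : Bool → Type) (_ : ∀ t, BooleanAlgebra (A t)) (B : Type) (_ : BooleanAlgebra B)
      (M : Type) (_ : BooleanAlgebra M) (i : ∀ t, BoundedLatticeHom (A t) B)
      (j : ∀ t, BoundedLatticeHom (A t) M), (∀ t, Nontrivial (A t)) ∧
      ∀ n m : Cardinal.{0}, Cardinal.aleph0 ≤ n → n ≤ m →
        IsProduct m n i ∧ IsMinimalProduct m n j ∧ ¬ ProductLE m j i ∧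
        ∀ (M' : Type) [BooleanAlgebra M'] (j' : ∀ t, BoundedLatticeHom (A t) M'),
          IsMinimalProduct m n j' → ¬ ProductLE m j' i :=
  ⟨fun _ => RO X, fun _ => inferInstance, RO Y, inferInstance, RO (X × X), inferInstance, iQ, iM,
    fun _ => inferInstance, fun _ _ hn hnm => ⟨isProductQ hn hnm, isMinimalM hn hnm,
      not_le (hn.trans hnm) iM (isMinimalM hn hnm),
      fun _ _ j' hj' => not_le (hn.trans hnm) j' hj'⟩⟩

end Pool.Agent.Results.MP_6fd33d_al.NotSmallest
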